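import Pool.Agent.W443.J6.Stms

/-!
# PSA: removal of an edge by a shift in `x`
-/

set_option autoImplicit false

open MvPolynomial Pool.Agent.H938R2.JC Pool.Agent.W443.J5 Pool.Agent.W443.J6

namespace Pool.Agent.W410.J6.PSA

universe u

variable {k : Type u} [Field k]

/-- The shift. -/
noncomputable def sh (c : k) (n : ℕ) : Fin 2 → MvPolynomial (Fin 2) k :=
  ![X 0 - C c * X 1 ^ n, X 1]

theorem sh_zero (c : k) (n : ℕ) : sh c n 0 = X 0 - C c * X 1 ^ n := rfl

theorem sh_one (c : k) (n : ℕ) : sh c n 1 = X 1 := rfl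

theorem term (i j : ℕ) (r : k) :
    (monomial (e i j) r : MvPolynomial (Fin 2) k) = C r * (X 0 ^ i * X 1 ^ j) := by
  rw [X_pow_eq_monomial, X_pow_eq_monomial, monomial_mul, C_mul_monomial]
  simp [e]

theorem aeval_mono (c : k) (n : ℕ) (u : Fin 2 →₀ ℕ) (r : k) :
    aeval (sh c n) (monomial u r) = ∑ j ∈ Finset.range (u 0 + 1),
      monomial (e j (n * (u 0 - j) + u 1)) (r * (-c) ^ (u 0 - j) * ((u 0).choose j : k)) := by
  rw [aeval_monomial, Finsupp.prod_fintype _ _ (by simp), Fin.prod_univ_two, sh_zero, sh_one,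
    sub_eq_add_neg, add_pow, Finset.sum_mul, Finset.mul_sum]
  refine Finset.sum_congr rfl fun j _ => ?_
  rw [term]
  simp only [map_mul, map_pow, map_neg, map_natCast, algebraMap_eq]
  have h : (-(C c * X 1 ^ n) : MvPolynomial (Fin 2) k) ^ (u 0 - j) =
      (-(C c)) ^ (u 0 - j) * X 1 ^ (n * (u 0 - j)) := by
    rw [pow_mul, ← mul_pow]
    congr 1
    ring
  rw [h]
  ring

theorem mono_ne {c : k} {n : ℕ} {u m : Fin 2 →₀ ℕ} {r : k}
    (h : coeff m (aeval (sh c n) (monomial u r)) ≠ 0) :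
    n * m 0 + m 1 = n * u 0 + u 1 ∧ m 0 ≤ u 0 := by
  rw [aeval_mono, coeff_sum] at h
  obtain ⟨j, hj, hj2⟩ := Finset.exists_ne_zero_of_sum_ne_zero h
  rw [coeff_monomial] at hj2
  have h3 : e j (n * (u 0 - j) + u 1) = m := by
    by_contra hne
    exact hj2 (if_neg hne)
  rw [Finset.mem_range] at hj
  rw [← h3, e_zero, e_one]
  have h4 : n * j + n * (u 0 - j) = n * u 0 := by
    rw [← mul_add]
    congr 1
    omega
  exact ⟨by omega, by omega⟩

theorem mono_self (c : k) (n : ℕ) (u : Fin 2 →₀ ℕ) (r : k) :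
    coeff u (aeval (sh c n) (monomial u r)) = r := by
  rw [aeval_mono, coeff_sum, Finset.sum_eq_single (u 0)]
  · rw [coeff_monomial, if_pos]
    · simp
    · rw [ext_iff']
      simp
  · intro j hj hne
    rw [coeff_monomial, if_neg]
    intro h
    apply hne
    rw [ext_iff'] at h
    simpa using h.1
  · intro h
    exact absurd (Finset.mem_range.2 (Nat.lt_succ_self _)) h

theorem coeff_sh (c : k) (n : ℕ) (f : MvPolynomial (Fin 2) k) (m : Fin 2 →₀ ℕ) :
    coeff m (aeval (sh c n) f) =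
      ∑ u ∈ f.support, coeff m (aeval (sh c n) (monomial u (coeff u f))) := by
  conv_lhs => rw [f.as_sum]
  rw [map_sum, coeff_sum]

theorem sh_ne {c : k} {n : ℕ} {f : MvPolynomial (Fin 2) k} {m : Fin 2 →₀ ℕ}
    (h : coeff m (aeval (sh c n) f) ≠ 0) :
    ∃ u, coeff u f ≠ 0 ∧ n * m 0 + m 1 = n * u 0 + u 1 ∧ m 0 ≤ u 0 := by
  rw [coeff_sh] at h
  obtain ⟨u, hu, hu2⟩ := Finset.exists_ne_zero_of_sum_ne_zero h
  exact ⟨u, mem_support_iff.1 hu, mono_ne hu2⟩

theorem sh_top {c : k} {n : ℕ} {f : MvPolynomial (Fin 2) k} {u : Fin 2 →₀ ℕ}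
    (hf : ∀ v, coeff v f ≠ 0 → v 0 ≤ u 0) :
    coeff u (aeval (sh c n) f) = coeff u f := by
  rw [coeff_sh, Finset.sum_eq_single u]
  · exact mono_self c n u _
  · intro v hv hne
    by_contra h
    obtain ⟨h1, h2⟩ := mono_ne h
    have h3 := hf v (mem_support_iff.1 hv)
    have h4 : u 0 = v 0 := le_antisymm h2 h3
    apply hne
    rw [ext_iff']
    refine ⟨h4.symm, ?_⟩
    rw [h4] at h1
    omega
  · intro h
    rw [notMem_support_iff.1 h]
    simp

theorem coeff_part (w0 w1 d : ℤ) (f : MvPolynomial (Fin 2) k) (m : Fin 2 →₀ ℕ) :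
    coeff m (part w0 w1 d f) = if w0 * (m 0 : ℤ) + w1 * (m 1 : ℤ) = d then coeff m f else 0 := by
  unfold part
  rw [coeff_sum]
  simp only [coeff_monomial]
  rw [Finset.sum_ite_eq' _ m]
  by_cases h : w0 * (m 0 : ℤ) + w1 * (m 1 : ℤ) = d
  · rw [if_pos h]
    by_cases h0 : coeff m f = 0
    · rw [h0]; simp
    · rw [if_pos]
      exact Finset.mem_filter.2 ⟨mem_support_iff.2 h0, h⟩
  · rw [if_neg h, if_neg]
    intro h2
    exact h (Finset.mem_filter.1 h2).2

theorem sh_part (c : k) (n : ℕ) (d : ℤ) (f : MvPolynomial (Fin 2) k) :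
    part n 1 d (aeval (sh c n) f) = aeval (sh c n) (part n 1 d f) := by
  ext m
  rw [coeff_part]
  have hsplit : f = part n 1 d f + (f - part n 1 d f) := by ring
  split_ifs with h
  · conv_lhs => rw [hsplit]
    rw [map_add, coeff_add]
    have : coeff m (aeval (sh c n) (f - part n 1 d f)) = 0 := by
      by_contra hne
      obtain ⟨u, hu, hu2, -⟩ := sh_ne hne
      apply hu
      rw [coeff_sub, coeff_part, if_pos, sub_self]
      rw [← h]
      have h5 : ((n * m 0 + m 1 : ℕ) : ℤ) = ((n * u 0 + u 1 : ℕ) : ℤ) := by rw [hu2]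
      push_cast at h5
      linarith
    rw [this, add_zero]
  · by_contra hne
    obtain ⟨u, hu, hu2, -⟩ := sh_ne (Ne.symm hne)
    rw [coeff_part] at hu
    apply h
    have h6 : (n : ℤ) * (u 0 : ℤ) + 1 * (u 1 : ℤ) = d := by
      by_contra h7
      exact hu (if_neg h7)
    rw [← h6]
    have h5 : ((n * m 0 + m 1 : ℕ) : ℤ) = ((n * u 0 + u 1 : ℕ) : ℤ) := by rw [hu2]
    push_cast at h5
    linarith

/-- The shift as an automorphism. -/
noncomputable def shE (c : k) (n : ℕ) : MvPolynomial (Fin 2) k ≃ₐ[k] MvPolynomial (Fin 2) k :=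
  AlgEquiv.ofAlgHom (aeval (sh c n)) (aeval (sh (-c) n))
    (by
      apply MvPolynomial.algHom_ext
      intro i
      fin_cases i
      · simp [sh]
      · simp [sh])
    (by
      apply MvPolynomial.algHom_ext
      intro i
      fin_cases i
      · simp [sh]
      · simp [sh])

theorem J_sh (c : k) (n : ℕ) : J (sh c n 0) (sh c n 1) = 1 := by
  rw [sh_zero, sh_one]
  unfold J
  rw [map_sub, pderiv_X_self, pderiv_X_self, pderiv_X_of_ne (by decide : (1 : Fin 2) ≠ 0)]
  have h : pderiv (0 : Fin 2) (C c * X 1 ^ n : MvPolynomial (Fin 2) k) = 0 := by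
    rw [Derivation.leibniz, Derivation.leibniz_pow, pderiv_X_of_ne (by decide : (1 : Fin 2) ≠ 0)]
    simp
  rw [h]
  ring

theorem main : S_SIM.{u} → S_PSA.{u} := by
  intro hS k _ _ _ f g a b m q n κ c ha hb hab hm hB hs1 hs2 hL hU hn hκ hT hP
  have hJ : Bad (aeval (sh c n) f) (aeval (sh c n) g) := by
    obtain ⟨⟨c', hc', hJ⟩, hG⟩ := hB
    refine ⟨⟨c', hc', ?_⟩, ?_⟩
    · rw [J_aeval, J_sh, hJ, mul_one]
      simp
    · intro h
      exact hG (Good.of_equiv (shE c n) h)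
  -- the part
  have hP' : part n 1 (n * (a * m) + a * q) (aeval (sh c n) f) =
      C κ * X 1 ^ (a * q) * X 0 ^ (a * m) := by
    rw [sh_part, hP]
    simp only [map_mul, map_pow, map_add, aeval_X, sh_one, sh_zero, aeval_C, algebraMap_eq]
    ring
  have hcoef : coeff (e (a * m) (a * q)) (aeval (sh c n) f) = κ := by
    have h1 := congrArg (coeff (e (a * m) (a * q))) hP'
    rw [coeff_part, if_pos] at h1
    · rw [h1]
      have h2 : (C κ * X 1 ^ (a * q) * X 0 ^ (a * m) : MvPolynomial (Fin 2) k) =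
          monomial (e (a * m) (a * q)) κ := by
        rw [term]; ring
      rw [h2, coeff_monomial, if_pos rfl]
    · simp
  have hLf : ∀ v, coeff v f ≠ 0 → v 0 ≤ a * m := by
    intro v hv
    rcases hL.2 v hv with h | h
    · push_cast at h
      have : (v 0 : ℤ) < (a * m : ℕ) := by push_cast; linarith
      exact_mod_cast this.le
    · push_cast at h
      have : (v 0 : ℤ) = (a * m : ℕ) := by push_cast; linarith [h.1]
      exact_mod_cast this.le
  have hkey : ∀ v, coeff v (aeval (sh c n) f) ≠ 0 → v 0 < a * m ∨ (v 0 = a * m ∧ coeff v f ≠ 0) := by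
    intro v hv
    obtain ⟨u, hu, hu2, hu3⟩ := sh_ne hv
    rcases lt_or_eq_of_le (hu3.trans (hLf u hu)) with h | h
    · exact Or.inl h
    · right
      refine ⟨h, ?_⟩
      have h0 : u 0 = v 0 := le_antisymm (by rw [h]; exact hLf u hu) hu3
      have h1 : u = v := by
        rw [ext_iff']
        refine ⟨h0, ?_⟩
        rw [h0] at hu2
        omega
      rwa [← h1]
  have hL' : Low 1 0 (a * m) (a * q) (aeval (sh c n) f) := by
    refine ⟨by rw [hcoef]; exact hκ, ?_⟩
    intro v hv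
    rcases hkey v hv with h | ⟨h, h'⟩
    · left
      have : (v 0 : ℤ) < ((a * m : ℕ) : ℤ) := by exact_mod_cast h
      linarith
    · exact hL.2 v h'
  have hU' : Upp 1 0 (a * m) (a * q) (aeval (sh c n) f) := by
    refine ⟨by rw [hcoef]; exact hκ, ?_⟩
    intro v hv
    rcases hkey v hv with h | ⟨h, h'⟩
    · left
      have : (v 0 : ℤ) < ((a * m : ℕ) : ℤ) := by exact_mod_cast h
      linarith
    · exact hU.2 v h'
  have hT' : Top n 1 (n * (a * m) + a * q) (aeval (sh c n) f) := by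
    refine ⟨?_, ⟨e (a * m) (a * q), by rw [hcoef]; exact hκ, by simp⟩⟩
    intro v hv
    obtain ⟨u, hu, hu2, -⟩ := sh_ne hv
    have h1 := hT.1 u hu
    have h5 : ((n * v 0 + v 1 : ℕ) : ℤ) = ((n * u 0 + u 1 : ℕ) : ℤ) := by rw [hu2]
    push_cast at h5
    linarith
  have hT1 : Top 1 0 (a * m) (aeval (sh c n) f) := by
    refine ⟨?_, ⟨e (a * m) (a * q), by rw [hcoef]; exact hκ, by simp⟩⟩
    intro v hv
    have : v 0 ≤ a * m := by
      rcases hkey v hv with h | ⟨h, -⟩
      · exact h.le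
      · exact h.le
    have h2 : (v 0 : ℤ) ≤ ((a * m : ℕ) : ℤ) := by exact_mod_cast this
    push_cast at h2
    linarith
  have hTf : Top 1 0 (a * m) f := by
    refine ⟨?_, ⟨e (a * m) (a * q), hL.1, by simp⟩⟩
    intro v hv
    have h2 : (v 0 : ℤ) ≤ ((a * m : ℕ) : ℤ) := by exact_mod_cast hLf v hv
    push_cast at h2
    linarith
  obtain ⟨n', hn', hn2, hTg⟩ := hs1.1 1 0 (a * m) (Or.inl one_pos) hTf
  have hnm : n' = m := by
    have ha0 : (a : ℤ) ≠ 0 := by
      have : 0 < a := by omega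
      exact_mod_cast this.ne'
    exact (mul_left_cancel₀ ha0 hn2).symm
  rw [hnm] at hTg
  have hTg' : Top 1 0 (b * m) (aeval (sh c n) g) := by
    obtain ⟨h1, ⟨u, hu, hu2⟩⟩ := hTg
    refine ⟨?_, ⟨u, ?_, hu2⟩⟩
    · intro v hv
      obtain ⟨w, hw, -, hw3⟩ := sh_ne hv
      have h2 := h1 w hw
      have h3 : (v 0 : ℤ) ≤ (w 0 : ℤ) := by exact_mod_cast hw3
      linarith
    · rw [sh_top]
      · exact hu
      · intro v hv
        have h2 := h1 v hv
        have h3 : (v 0 : ℤ) ≤ (u 0 : ℤ) := by linarith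
        exact_mod_cast h3
  obtain ⟨r1, r2⟩ := hS k _ _ hJ a b (by omega) (by omega) hab 1 0 m (Or.inl one_pos) hT1 hTg'
  exact ⟨_, _, hJ, r1, r2, hL', hU', hT', hP'⟩

end Pool.Agent.W410.J6.PSA
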